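import Pool.Agent.H53.BS.Glue
import Pool.Agent.H53.BS.BMS

set_option autoImplicit false

/-!
# MP_12a1af_nt, Q1: bases which are bounded on most scales and small everywhere

`rep A n` is the number `r_A(n)` of ordered pairs `(a, b) ∈ A × A` with `a + b = n`, and
`badScales A R K` is the number of the `k < K` such that some `n` with `2 ^ k ≤ n < 2 ^ (k + 1)` has
`r_A(n) > R k`.

1. (general tradeoff)  Let `κ : ℕ → ℝ` be nondecreasing, `κ ≥ 1`, with `κ(j) √i ≤ κ(i) √j` for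
   `1 ≤ i ≤ j` and `2 κ(j) ≤ √j` for some `j ≥ 1`.  There is an asymptotic basis `A` of order two with

   * `r_A(n) ≤ n ^ (28 / κ(log₂ n))` for ALL `n ≥ 1`, and
   * `r_A(n) ≤ 6 κ(k) + 224` for all integers `n` of the scale `[2 ^ k, 2 ^ (k + 1))`, for all but
     `C + 300 ∑_{j ≤ K} κ(j) ^ 2 / j` of the scales `k < K`.

2. (`κ` constant)  For every `0 < η ≤ 1` there is an asymptotic basis `A` with `r_A(n) ≤ n ^ η` for ALL
   `n ≥ 1`, and `r_A(n) ≤ 400 / η` for all integers `n` of all but `C + 240000 η⁻² log K` of the first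
   `K` dyadic scales.

3. (`κ → ∞` arbitrarily slowly)  For every function `ω(k) → ∞` there is an asymptotic basis `A` with
   `r_A(n) ≤ n ^ ε` for every `ε > 0` and all large `n`, and `r_A(n) ≤ ω(k)` for all integers `n` of the
   scale `[2 ^ k, 2 ^ (k + 1))`, for all but `ω(K) log K` of the scales `k < K` (`K` large).

4. (`κ(j) = c √j`)  For every `δ > 0` there is an asymptotic basis `A` with
   `r_A(n) ≤ exp (C √log n)` for all `n ≥ 1`, and `r_A(n) ≤ C √(k + 1)` on all but `C + δ K` of the scales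
   `k < K`.

5. There is a set `A` with `A + A = ℕ` and `r_A ≤ 6` on all but `5 (log₂ K + 1)` of the first `K` scales.
   (Here `r_A(n)` is of the size of `n` on the other scales.)

By the hand-in `EveryWindow` a basis has at least `log₂ K - C` scales `k < K` with a value `r_A(n) ≥ 8`, so
`log K` is the right order of the number of the exceptional scales in 5.

Construction of 1: the stage with parameters `u, k` covers the integers from `4 M` to `M 2 ^ (16 u)`,
`M = 2 ^ (u (k + 25))`, by a thick set in `[M, 3 M)` (a hashed digit set `Y` modulo `2 ^ (u k)` with free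
top digits) and a set of `2 ^ (16 u)` layers of a second hashed digit set `X`, hashed once more in a
block of `24 u` binary digits; `X` and `Y` tile the residues.  Hash functions are chosen by exponential
moments for the sums with the elements of all earlier stages, whose distribution modulo powers of two
is controlled.  The parameters `k` of the stages grow like `κ`.
-/

open Filter Finset

namespace Pool.Agent.Results.MP_12a1af_nt.BoundedScalesSmallPowers

/-- `r_A(n)`: the number of ordered pairs of elements of `A` with sum `n` -/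
noncomputable def rep (A : Set ℕ) (n : ℕ) : ℕ :=
  {p : ℕ × ℕ | p.1 ∈ A ∧ p.2 ∈ A ∧ p.1 + p.2 = n}.ncard

/-- `A` is an asymptotic basis of order two: every large integer is a sum of two elements of `A` -/
def Basis (A : Set ℕ) : Prop := ∀ᶠ n : ℕ in atTop, 1 ≤ rep A n

/-- the number of the scales `[2 ^ k, 2 ^ (k + 1))`, `k < K`, which contain an integer `n` with
`r_A(n) > R k` -/
noncomputable def badScales (A : Set ℕ) (R : ℕ → ℝ) (K : ℕ) : ℕ :=
  {k : ℕ | k < K ∧ ∃ n, 2 ^ k ≤ n ∧ n < 2 ^ (k + 1) ∧ R k < (rep A n : ℝ)}.ncard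

/-- the general tradeoff -/
lemma tradeoff (κ : ℕ → ℝ) (h1 : ∀ j, 1 ≤ κ j) (h2 : Monotone κ)
    (h3 : ∀ i j : ℕ, 1 ≤ i → i ≤ j → κ j * √(i : ℝ) ≤ κ i * √(j : ℝ))
    (h4 : ∃ j : ℕ, 1 ≤ j ∧ 2 * κ j ≤ √(j : ℝ)) : ∃ (A : Set ℕ) (C : ℝ), Basis A ∧
    (∀ n : ℕ, 1 ≤ n → (rep A n : ℝ) ≤ (n : ℝ) ^ (28 / κ (Nat.log 2 n))) ∧
    ∀ K : ℕ, (badScales A (fun k => 6 * κ k + 224) K : ℝ) ≤
      C + 300 * ∑ j ∈ Icc 1 K, κ j ^ 2 / j :=
  Pool.Agent.H53.BS.Glue.fin3 κ h1 h2 h3 h4

lemma constant (η : ℝ) (h0 : 0 < η) (h1 : η ≤ 1) : ∃ (A : Set ℕ) (C : ℝ), Basis A ∧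
    (∀ n : ℕ, 1 ≤ n → (rep A n : ℝ) ≤ (n : ℝ) ^ η) ∧
    ∀ K : ℕ, 1 ≤ K → (badScales A (fun _ => 400 / η) K : ℝ) ≤
      C + 240000 / η ^ 2 * Real.log K := by
  have hκ : 28 ≤ 28 / η := by
    rw [le_div_iff₀ h0]
    nlinarith
  obtain ⟨A, C, hA, hB, hC⟩ := tradeoff (fun _ => 28 / η) (fun _ => by linarith)
    monotone_const (fun i j _ hij => by
      have : √(i : ℝ) ≤ √(j : ℝ) := Real.sqrt_le_sqrt (by exact_mod_cast hij)
      exact mul_le_mul_of_nonneg_left this (by linarith)) (by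
      obtain ⟨j, hj⟩ := exists_nat_ge ((2 * (28 / η)) ^ 2 + 1)
      refine ⟨j, ?_, ?_⟩
      · have : (1 : ℝ) ≤ j := by nlinarith [sq_nonneg (2 * (28 / η))]
        exact_mod_cast this
      · exact Real.le_sqrt_of_sq_le (by linarith))
  refine ⟨A, C + 240000 / η ^ 2, hA, fun n hn => ?_, fun K hK => ?_⟩
  · have h := hB n hn
    have e : 28 / (28 / η) = η := by
      field_simp
    simp only [e] at h
    exact h
  · have hsum : ∑ j ∈ Icc 1 K, (28 / η) ^ 2 / (j : ℝ) ≤ (28 / η) ^ 2 * (1 + Real.log K) := by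
      have e : ∑ j ∈ Icc 1 K, (28 / η) ^ 2 / (j : ℝ) = (28 / η) ^ 2 * ∑ j ∈ Icc 1 K, ((j : ℝ))⁻¹ := by
        rw [Finset.mul_sum]
        exact Finset.sum_congr rfl fun j _ => by rw [div_eq_mul_inv]
      have h := harmonic_le_one_add_log K
      rw [harmonic_eq_sum_Icc] at h
      push_cast at h
      rw [e]
      exact mul_le_mul_of_nonneg_left h (by positivity)
    have hmono : (badScales A (fun _ => 400 / η) K : ℝ) ≤
        (badScales A (fun k => 6 * (28 / η) + 224) K : ℝ) := by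
      have hle : 6 * (28 / η) + 224 ≤ 400 / η := by
        have : (224 : ℝ) ≤ 224 / η := by
          rw [le_div_iff₀ h0]
          nlinarith
        have e2 : 400 / η = 6 * (28 / η) + 224 / η + 8 / η := by ring
        have e3 : 0 < 8 / η := by positivity
        linarith
      unfold badScales
      refine Nat.cast_le.2 (Set.ncard_le_ncard (fun k hk => ?_) ?_)
      · obtain ⟨hk1, n, hn1, hn2, hn3⟩ := hk
        exact ⟨hk1, n, hn1, hn2, lt_of_le_of_lt hle hn3⟩
      · exact (Set.finite_lt_nat K).subset fun k hk => hk.1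
    have hlog : 0 ≤ Real.log K := Real.log_nonneg (by exact_mod_cast hK)
    have hη : 0 < 1 / η ^ 2 := by positivity
    have e4 : 300 * ((28 / η) ^ 2 * (1 + Real.log K)) ≤
        240000 / η ^ 2 + 240000 / η ^ 2 * Real.log K := by
      have : 300 * ((28 / η) ^ 2 * (1 + Real.log K)) =
          235200 * (1 / η ^ 2) * (1 + Real.log K) := by ring
      rw [this]
      have : 240000 / η ^ 2 + 240000 / η ^ 2 * Real.log K =
          240000 * (1 / η ^ 2) * (1 + Real.log K) := by ring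
      rw [this]
      have h5 : 0 ≤ 1 / η ^ 2 * (1 + Real.log K) := by positivity
      nlinarith
    have hK2 := hC K
    linarith

theorem result :
    -- 1. the general tradeoff
    (∀ κ : ℕ → ℝ, (∀ j, 1 ≤ κ j) → Monotone κ →
      (∀ i j : ℕ, 1 ≤ i → i ≤ j → κ j * √(i : ℝ) ≤ κ i * √(j : ℝ)) →
      (∃ j : ℕ, 1 ≤ j ∧ 2 * κ j ≤ √(j : ℝ)) → ∃ (A : Set ℕ) (C : ℝ), Basis A ∧
      (∀ n : ℕ, 1 ≤ n → (rep A n : ℝ) ≤ (n : ℝ) ^ (28 / κ (Nat.log 2 n))) ∧
      ∀ K : ℕ, (badScales A (fun k => 6 * κ k + 224) K : ℝ) ≤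
        C + 300 * ∑ j ∈ Icc 1 K, κ j ^ 2 / j) ∧
    -- 2. at most `n ^ η` everywhere, at most `400 / η` on all but `O(log K)` scales
    (∀ η : ℝ, 0 < η → η ≤ 1 → ∃ (A : Set ℕ) (C : ℝ), Basis A ∧
      (∀ n : ℕ, 1 ≤ n → (rep A n : ℝ) ≤ (n : ℝ) ^ η) ∧
      ∀ K : ℕ, 1 ≤ K → (badScales A (fun _ => 400 / η) K : ℝ) ≤
        C + 240000 / η ^ 2 * Real.log K) ∧
    -- 3. at most `n ^ o(1)` everywhere, at most `ω(k)` on all but `ω(K) log K` scales
    (∀ ω : ℕ → ℝ, Tendsto ω atTop atTop → ∃ A : Set ℕ, Basis A ∧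
      (∀ ε : ℝ, 0 < ε → ∀ᶠ n : ℕ in atTop, (rep A n : ℝ) ≤ (n : ℝ) ^ ε) ∧
      ∀ᶠ K : ℕ in atTop, (badScales A ω K : ℝ) ≤ ω K * Real.log K) ∧
    -- 4. at most `exp (C √log n)` everywhere, at most `C √(k + 1)` on all but `C + δ K` scales
    (∀ δ : ℝ, 0 < δ → ∃ (A : Set ℕ) (C : ℝ), Basis A ∧
      (∀ n : ℕ, 1 ≤ n → (rep A n : ℝ) ≤ Real.exp (C * √(Real.log n))) ∧
      ∀ K : ℕ, (badScales A (fun k => C * √((k : ℝ) + 1)) K : ℝ) ≤ C + δ * K) ∧
    -- 5. at most `6` on all but `O(log K)` scales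
    ∃ A : Set ℕ, (∀ n : ℕ, 1 ≤ rep A n) ∧
      ∀ K : ℕ, badScales A (fun _ => 6) K ≤ 5 * (Nat.log 2 K + 1) := by
  refine ⟨tradeoff, constant, Pool.Agent.H53.BS.Glue.fin2, Pool.Agent.H53.BS.Glue.cor3, ?_⟩
  obtain ⟨A, hA, hB⟩ := Pool.Agent.H53.BS.BMS.main
  refine ⟨A, hA, fun K => ?_⟩
  refine le_trans (le_of_eq ?_) (hB K)
  unfold badScales
  rw [← Set.ncard_coe_finset]
  congr 1
  ext k
  simp only [Finset.coe_filter, Finset.mem_range, Set.mem_setOf_eq]
  constructor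
  · rintro ⟨h1, n, h2, h3, h4⟩
    exact ⟨h1, n, h2, h3, by exact_mod_cast h4⟩
  · rintro ⟨h1, n, h2, h3, h4⟩
    exact ⟨h1, n, h2, h3, by exact_mod_cast h4⟩

end Pool.Agent.Results.MP_12a1af_nt.BoundedScalesSmallPowers
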