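import Pool.Agent.H21.ET.Cor
import Pool.Agent.H21.ET.Sharp

set_option autoImplicit false

/-!
# MP_12a1af_nt, Q1: representation functions of arbitrary sets on windows

`rep A n` is the number `r_A(n)` of ordered pairs `(a, b) ∈ A × A` with `a + b = n`.
Nothing is assumed about the set `A` (no boundedness of `r_A`) except in part 5.

Let `1 ≤ l ≤ g` be integers with `(l + g - 1369/2520)² < 4 l g`, for instance `(l, g) = (1, 3)`.

1. **The law on `[M, N]`.** There are `δ > 0` and `C` such that for EVERY set `A` of natural numbers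
   and all `1 ≤ M ≤ N`

   `δ log (N / M) ≤ C (1 + |A ∩ [0, M)|² / M) + ∑_{n ∈ [M, N], r_A(n) ≤ 2 l - 2} 1 / n
       + ∑_{n ∈ [M, N], r_A(n) ≥ 2 g + 2} r_A(n)² / n`.

2. **The law on `[x, N]`, `N ≥ x²`.** With other constants, for EVERY set `A` and all `1 ≤ x`,
   `x² ≤ N`,

   `δ log (N / x²) - C ≤ ∑_{n ∈ [x², N], r_A(n) ≤ 2 l - 2} 1 / n
       + ∑_{n ∈ [x, N], r_A(n) ≥ 2 g + 2} r_A(n)² / n`.

3. **Windows.** There is an absolute constant `Λ` such that for EVERY set `A` and EVERY `x ≥ 1` there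
   is `n ∈ [x, Λ x²]` with `r_A(n) ≤ 2 l - 2` or `r_A(n) ≥ 2 g + 2`; for `(l, g) = (1, 3)`:
   `r_A(n) = 0` or `r_A(n) ≥ 8`.

4. **Scales.** For every set `A` at least `log₂ K - C` of the first `K` dyadic intervals
   `[2 ^ k, 2 ^ (k + 1))` contain such an `n`.

5. **Bounded representation functions.** If `r_A ≤ K` then for EVERY `M ≥ 1` at least `M` of the
   integers in `[M, Λ_K M]` are of this kind: they have positive lower density.

6. **Sharpness.** The exponent `2` in 3 cannot be lowered: there is a set `A` such that every natural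
   number is a sum of two elements of `A` and `r_A ≤ 6` on `[x, x² / 144]` for arbitrarily large `x`.

The proof localises the variance inequality behind `EightRepresentations` (and, without boundedness,
`AllSetsVarianceLaw`) at `[M, N]`.  The elements of `A` below `M` enter through the numbers they help to
represent, and `(∑_{b ∈ A ∩ [M, N]} 1 / b)² ≤ (2 / M) ∑ r_A(n) / n`.
-/

open Finset

namespace Pool.Agent.Results.MP_12a1af_nt.EveryWindow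

/-- `r_A(n)`: the number of ordered pairs of elements of `A` with sum `n` -/
noncomputable def rep (A : Set ℕ) (n : ℕ) : ℕ :=
  {p : ℕ × ℕ | p.1 ∈ A ∧ p.2 ∈ A ∧ p.1 + p.2 = n}.ncard

open Classical in
/-- `∑ 1 / n` over the `n ∈ [M, N]` with `r_A(n) ≤ 2 l - 2` -/
noncomputable def small (l : ℕ) (A : Set ℕ) (M N : ℕ) : ℝ :=
  ∑ n ∈ (Icc M N).filter (fun n => rep A n ≤ 2 * l - 2), 1 / (n : ℝ)

open Classical in
/-- `∑ r_A(n)² / n` over the `n ∈ [M, N]` with `r_A(n) ≥ 2 g + 2` -/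
noncomputable def large (g : ℕ) (A : Set ℕ) (M N : ℕ) : ℝ :=
  ∑ n ∈ (Icc M N).filter (fun n => 2 * g + 2 ≤ rep A n), (rep A n : ℝ) ^ 2 / (n : ℝ)

/-- `r_A(n) ≤ 2 l - 2` or `r_A(n) ≥ 2 g + 2` -/
def Off (l g : ℕ) (A : Set ℕ) (n : ℕ) : Prop := rep A n ≤ 2 * l - 2 ∨ 2 * g + 2 ≤ rep A n

/-- the condition on `l` and `g` -/
def Close (l g : ℕ) : Prop :=
  1 ≤ l ∧ l ≤ g ∧ ((l : ℝ) + g - 1369 / 2520) ^ 2 < 4 * l * g

open Classical in
theorem result :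
    -- 1. the law on `[M, N]`
    (∀ l g : ℕ, Close l g → ∃ δ : ℝ, 0 < δ ∧ ∃ C : ℝ, ∀ (A : Set ℕ) (M N : ℕ), 1 ≤ M → M ≤ N →
      δ * Real.log ((N : ℝ) / M) ≤ C * (1 + ((A ∩ Set.Iio M).ncard : ℝ) ^ 2 / M) +
        small l A M N + large g A M N) ∧
    -- 2. the law on `[x, N]`, without any hypothesis
    (∀ l g : ℕ, Close l g → ∃ δ : ℝ, 0 < δ ∧ ∃ C : ℝ, ∀ (A : Set ℕ) (x N : ℕ), 1 ≤ x → x ^ 2 ≤ N →
      δ * Real.log ((N : ℝ) / (x : ℝ) ^ 2) - C ≤ small l A (x ^ 2) N + large g A x N) ∧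
    -- 3. windows
    (∀ l g : ℕ, Close l g → ∃ Λ : ℕ, ∀ (A : Set ℕ) (x : ℕ), 1 ≤ x →
      ∃ n, x ≤ n ∧ n ≤ Λ * x ^ 2 ∧ Off l g A n) ∧
    (∃ Λ : ℕ, ∀ (A : Set ℕ) (x : ℕ), 1 ≤ x →
      ∃ n, x ≤ n ∧ n ≤ Λ * x ^ 2 ∧ (rep A n = 0 ∨ 8 ≤ rep A n)) ∧
    -- 4. dyadic scales
    (∀ l g : ℕ, Close l g → ∃ C : ℕ, ∀ (A : Set ℕ) (K : ℕ), Nat.log 2 K ≤
      ((range K).filter (fun k => ∃ n, 2 ^ k ≤ n ∧ n < 2 ^ (k + 1) ∧ Off l g A n)).card + C) ∧
    -- 5. bounded representation functions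
    (∀ l g : ℕ, Close l g → ∀ K : ℕ, ∃ Λ : ℕ, ∀ A : Set ℕ, (∀ n, rep A n ≤ K) →
      ∀ M : ℕ, 1 ≤ M → M ≤ ((Icc M (Λ * M)).filter (fun n => Off l g A n)).card) ∧
    -- 6. the exponent `2` in part 3 is sharp
    (∃ A : Set ℕ, (∀ n, 1 ≤ rep A n) ∧ ∀ x₀ : ℕ, ∃ x, x₀ ≤ x ∧
      ∀ n, x ≤ n → 144 * n ≤ x ^ 2 → rep A n ≤ 6) := by
  have hwin : ∀ l g : ℕ, Close l g → ∃ Λ : ℕ, ∀ (A : Set ℕ) (x : ℕ), 1 ≤ x →
      ∃ n, x ≤ n ∧ n ≤ Λ * x ^ 2 ∧ Off l g A n := fun l g h =>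
    Pool.Agent.H21.ET.window l g h.1 h.2.1 h.2.2
  refine ⟨?_, ?_, hwin, ?_, ?_, ?_, ?_⟩
  · intro l g h
    obtain ⟨δ, hδ, C, -, h1⟩ := Pool.Agent.H21.ET.lawL l g h.1 h.2.1 h.2.2
    refine ⟨δ, hδ, C, fun A M N hM hMN => ?_⟩
    have h2 := h1 A M N hM hMN
    rw [Pool.Agent.H21.ET.lowS_card] at h2
    exact h2
  · intro l g h
    exact Pool.Agent.H21.ET.lawX l g h.1 h.2.1 h.2.2
  · obtain ⟨Λ, hΛ⟩ := hwin 1 3 ⟨le_rfl, by norm_num, by norm_num⟩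
    refine ⟨Λ, fun A x hx => ?_⟩
    obtain ⟨n, h1, h2, h3⟩ := hΛ A x hx
    refine ⟨n, h1, h2, ?_⟩
    unfold Off at h3
    omega
  · intro l g h
    exact Pool.Agent.H21.ET.scales l g h.1 h.2.1 h.2.2
  · intro l g h K
    obtain ⟨Λ, h1⟩ := Pool.Agent.H21.ET.bounded_window l g h.1 h.2.1 h.2.2 K
    refine ⟨Λ, fun A hA M hM => (h1 A hA M hM).trans (le_of_eq ?_)⟩
    apply congrArg Finset.card
    ext n
    rw [mem_filter, mem_filter]
    exact Iff.rfl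
  · exact Pool.Agent.H21.ET.Sharp.exists_set

end Pool.Agent.Results.MP_12a1af_nt.EveryWindow
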