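import Pool.Agent.H53.ET.Spec
import Pool.Agent.H53.ET.Cor

set_option autoImplicit false

/-!
# MP_12a1af_nt, Q1: how small can the exceptional set of a basis be?

`rep A n` is the number `r_A(n)` of ordered pairs `(a, b) ∈ A × A` with `a + b = n`, `cnt k A x` is
the number of integers `n ∈ [1, x]` with `r_A(n) ≥ k`, and `Basis A` says that `r_A(n) ≥ 1` for all
large `n`.

1. For every natural number `D` there is a basis `A` with `r_A(n) ≤ C (log n)^(2 D + 3)` for all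
   `n ≥ 2` and `r_A(n) ≤ 6` for all integers `n ≤ x` outside a set of at most `C x / (log x)^D`
   integers.  Conversely, if `A` is a basis with `r_A(n) ≤ C (log n)^K` and at most
   `C x / (log x)^D` integers `n ≤ x` have `r_A(n) ≥ 8`, then `D ≤ 2 K`.
2. For every real `η > 0` there is a basis `A` with `r_A(n) ≤ C (log n)^3 n^(2 η)` and
   `r_A(n) ≤ 6` for all integers `n ≤ x` outside a set of at most `C x^(1 - η / (1 + η)^4)`
   integers.  Conversely, if `A` is a basis with `r_A(n) ≤ C n^η` and at most `C x^(1 - θ)` integers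
   `n ≤ x` have `r_A(n) ≥ 8`, then `θ ≤ 2 η`.
3. There is an absolute constant `c > 0` such that for every basis `A` there are arbitrarily large
   `x` with `(max_{n ≤ x} r_A(n))² · #{n ≤ x : r_A(n) ≥ 8} ≥ c x`.

Construction: two towers of digit sets in a mixed radix system with radices `g_t = f(M_t)`, where
`M_(t+1) = M_t g_t` and `f(y)` is about `(log y)^D` or `y^η`; the digits are free in blocks of the
length of one radix and hashed in the other blocks.  The converse uses the variance law for all sets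
(hand-in `AllSetsVarianceLaw`, module `Pool.Agent.H38.ETU.Main`).
-/

open Finset

namespace Pool.Agent.Results.MP_12a1af_nt.ExceptionalSetTradeoff

/-- `r_A(n)`: the number of ordered pairs of elements of `A` with sum `n` -/
noncomputable def rep (A : Set ℕ) (n : ℕ) : ℕ :=
  {p : ℕ × ℕ | p.1 ∈ A ∧ p.2 ∈ A ∧ p.1 + p.2 = n}.ncard

/-- `A` is an asymptotic basis of order two -/
def Basis (A : Set ℕ) : Prop := ∃ n₀, ∀ n ≥ n₀, 1 ≤ rep A n

open Classical in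
/-- the number of integers `1 ≤ n ≤ x` with `r_A(n) ≥ k` -/
noncomputable def cnt (k : ℕ) (A : Set ℕ) (x : ℕ) : ℕ :=
  ((Icc 1 x).filter (fun n => k ≤ rep A n)).card

theorem result :
    (∀ D : ℕ, ∃ (A : Set ℕ) (C : ℝ), Basis A ∧
      (∀ n : ℕ, 2 ≤ n → (rep A n : ℝ) ≤ C * Real.log n ^ (2 * D + 3)) ∧
      ∀ x : ℕ, 2 ≤ x → (cnt 7 A x : ℝ) ≤ C * x / Real.log x ^ D) ∧
    (∀ (A : Set ℕ) (K D : ℕ) (C : ℝ), Basis A →
      (∀ n : ℕ, 2 ≤ n → (rep A n : ℝ) ≤ C * Real.log n ^ K) →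
      (∀ x : ℕ, 2 ≤ x → (cnt 8 A x : ℝ) ≤ C * x / Real.log x ^ D) → D ≤ 2 * K) ∧
    (∀ η : ℝ, 0 < η → ∃ (A : Set ℕ) (C : ℝ), Basis A ∧
      (∀ n : ℕ, 2 ≤ n → (rep A n : ℝ) ≤ C * Real.log n ^ 3 * (n : ℝ) ^ (2 * η)) ∧
      ∀ x : ℕ, 1 ≤ x → (cnt 7 A x : ℝ) ≤ C * (x : ℝ) ^ (1 - η / (1 + η) ^ 4)) ∧
    (∀ (A : Set ℕ) (η θ C : ℝ), 0 ≤ η → Basis A →
      (∀ n : ℕ, 1 ≤ n → (rep A n : ℝ) ≤ C * (n : ℝ) ^ η) →
      (∀ x : ℕ, 1 ≤ x → (cnt 8 A x : ℝ) ≤ C * (x : ℝ) ^ (1 - θ)) → θ ≤ 2 * η) ∧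
    ∃ c : ℝ, 0 < c ∧ ∀ A : Set ℕ, Basis A → ∀ X : ℕ, ∃ x ≥ X, ∀ R : ℕ,
      (∀ n ≤ x, rep A n ≤ R) → c * x ≤ (R : ℝ) ^ 2 * cnt 8 A x :=
  ⟨Pool.Agent.H53.ET.polylog, Pool.Agent.H53.ET.cor_log, Pool.Agent.H53.ET.powers,
    fun A η θ C hη hA h1 h2 => Pool.Agent.H53.ET.cor_pow A η θ C hη hA h1 h2,
    Pool.Agent.H53.ET.converse⟩

end Pool.Agent.Results.MP_12a1af_nt.ExceptionalSetTradeoff
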