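import Pool.Agent.H38.SP.F
import Pool.Agent.H38.SP.J

set_option autoImplicit false

/-!
# MP_12a1af_nt, Q1: sparse sets of targets

`rep A n` is the number `r_A(n)` of ordered pairs `(a, b) ∈ A × A` with `a + b = n` and `cnt S x` is
the number `S(x)` of elements of `S` below `x`.  Q1 asks whether `r_A` is unbounded as soon as `A + A`
contains all large integers.  Here only the integers of a sparse set `S` of *targets* have to be
represented.  Let `1 ≤ l ≤ g` be integers with `(l + g - 1369/2520)² < 4 l g`, for instance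
`(l, g) = (1, 3)`.

1. There are a set `S` with `S(x) ≤ C √x` for all `x`, and a number `L`, such that for EVERY set `A`
   and EVERY `x ≥ 1`: `r_A(s) ≤ 2 l - 2` for some target `s ∈ S ∩ [x², L x²]`, or `r_A(n) ≥ 2 g + 2`
   for some `n ∈ [x, L x²]`.
2. In particular there is a set `S` with `S(x) ≤ C √x` such that `r_A(n) ≥ 8` for infinitely many `n`
   for every set `A` for which all but finitely many `s ∈ S` are sums of two elements of `A`.
3. Random targets.  There are `C` and `L` such that the statement of 1 holds almost surely, for ALL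
   sets `A` and all `x ≥ x₀` (`x₀` is random), for every random set `S` such that the events `n ∈ S`
   are independent and `P(n ∈ S) ≥ C / √n` for all large `n`.
4. If the events `n ∈ S` are independent and `P(n ∈ S) √n → ∞` then almost surely, for ALL sets `A`:
   (a) if `r_A` is bounded and `r_A(s) ≥ v` for all but finitely many `s ∈ S`, then `r_A(n) ≥ v` for
   all `n` outside a set of density `0`; (b) for all `l` and `g` as above, if `r_A(s) ≥ 2 l - 1` for
   all but finitely many `s ∈ S`, then `r_A(n) ≥ 2 g + 2` for infinitely many `n`.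
5. Power savings.  Let `0 < θ ≤ 1/2`, `δ > 0`.  If `P(n ∈ S) ≥ δ n ^ (θ - 1/2)` for all large `n` then
   almost surely, for ALL sets `A` with `r_A(n) ≤ R` for all large `n` and `r_A(s) ≥ v` for all but
   finitely many `s ∈ S`: for all large `x` at most `C x ^ (1 - θ)` of the `n < x` have `r_A(n) < v`,
   where `C` depends only on `R, v, δ, θ`.  For instance for almost every set `S` (coin tossing,
   `θ = δ = 1/2`) a set `A` with bounded `r_A` for which `A + A` contains all large elements of `S`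
   represents all integers `n < x` with `O(√x)` exceptions.
6. The exponent `1 / 2` in 1-3 is sharp: for all `C` and `η > 0` there is `K` such that every set `S`
   with `S(x) ≤ C x ^ (1/2 - η)` for all `x ≥ 1` is contained in `A + A` for some `A` with `r_A ≤ K`.

Method.  1-5: up to `2 ^ (k + 1)` there are at most `exp (C 2 ^ (k / 2))` sets `A` such that
`r_A(n) ≤ R` for all `n ≥ x`, where `x ≤ 2 ^ (k / 2)`: this follows from the container theorem for
sets with bounded representation function (proved for `RelativeErdosTuran`).  For each of them for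
which more than `2 ^ k / T` integers of `[2 ^ k, 2 ^ (k + 1))` have few representations, a random set of
`C T 2 ^ (k / 2)` targets misses all these integers with a probability much smaller than the reciprocal
of the number of sets.  So the targets control almost all integers, and the variance law for windows
(hand-in `EveryWindow`) applies.  6: every target is represented by a new pair, which is chosen by means
of a potential function.
-/

open Finset Filter MeasureTheory ProbabilityTheory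

namespace Pool.Agent.Results.MP_12a1af_nt.SparseTargets

/-- `r_A(n)`: the number of ordered pairs of elements of `A` with sum `n` -/
noncomputable def rep (A : Set ℕ) (n : ℕ) : ℕ :=
  {p : ℕ × ℕ | p.1 ∈ A ∧ p.2 ∈ A ∧ p.1 + p.2 = n}.ncard

/-- `A(x)`: the number of elements of `A` below `x` -/
noncomputable def cnt (A : Set ℕ) (x : ℕ) : ℕ := (A ∩ Set.Iio x).ncard

/-- the condition on `l` and `g` -/
def Close (l g : ℕ) : Prop :=
  1 ≤ l ∧ l ≤ g ∧ ((l : ℝ) + g - 1369 / 2520) ^ 2 < 4 * l * g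

/-- the random set given by the events `E n` (`n` belongs to the set) -/
def rset {Ω : Type} (E : ℕ → Set Ω) (ω : Ω) : Set ℕ := {n | ω ∈ E n}

open Classical in
theorem result :
    -- 1. a sparse set of targets, windows
    (∀ l g : ℕ, Close l g → ∃ (S : Set ℕ) (C : ℝ) (L : ℕ),
      (∀ x : ℕ, (cnt S x : ℝ) ≤ C * Real.sqrt x) ∧
      ∀ (A : Set ℕ) (x : ℕ), 1 ≤ x →
        (∃ s ∈ S, x ^ 2 ≤ s ∧ s ≤ L * x ^ 2 ∧ rep A s ≤ 2 * l - 2) ∨
        (∃ n, x ≤ n ∧ n ≤ L * x ^ 2 ∧ 2 * g + 2 ≤ rep A n)) ∧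
    -- 2. in particular
    (∃ (S : Set ℕ) (C : ℝ), (∀ x : ℕ, (cnt S x : ℝ) ≤ C * Real.sqrt x) ∧
      ∀ A : Set ℕ, {s | s ∈ S ∧ rep A s = 0}.Finite → {n | 8 ≤ rep A n}.Infinite) ∧
    -- 3. random targets, windows
    (∀ l g : ℕ, Close l g → ∃ (C : ℝ) (L : ℕ),
      ∀ (Ω : Type) (_ : MeasurableSpace Ω) (μ : Measure Ω) (E : ℕ → Set Ω), iIndepSet E μ →
        (∀ n, MeasurableSet (E n)) →
        (∀ᶠ n : ℕ in atTop, C / Real.sqrt n ≤ μ.real (E n)) →
        ∀ᵐ ω ∂μ, ∃ x₀ : ℕ, ∀ (A : Set ℕ) (x : ℕ), x₀ ≤ x →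
          (∃ s ∈ rset E ω, x ^ 2 ≤ s ∧ s ≤ L * x ^ 2 ∧ rep A s ≤ 2 * l - 2) ∨
          (∃ n, x ≤ n ∧ n ≤ L * x ^ 2 ∧ 2 * g + 2 ≤ rep A n)) ∧
    -- 4. random targets, densities
    (∀ (Ω : Type) (_ : MeasurableSpace Ω) (μ : Measure Ω) (E : ℕ → Set Ω), iIndepSet E μ →
      (∀ n, MeasurableSet (E n)) →
      Tendsto (fun n : ℕ => μ.real (E n) * Real.sqrt n) atTop atTop →
      ∀ᵐ ω ∂μ,
        (∀ (A : Set ℕ) (R v : ℕ), (∀ n, rep A n ≤ R) →
          {s | s ∈ rset E ω ∧ rep A s < v}.Finite →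
          Tendsto (fun x : ℕ => (((range x).filter (fun n => rep A n < v)).card : ℝ) / x) atTop
            (nhds 0)) ∧
        (∀ l g : ℕ, Close l g → ∀ A : Set ℕ, {s | s ∈ rset E ω ∧ rep A s ≤ 2 * l - 2}.Finite →
          {n | 2 * g + 2 ≤ rep A n}.Infinite)) ∧
    -- 5. random targets, power savings
    (∀ (R v : ℕ) (δ θ : ℝ), 0 < δ → 0 < θ → θ ≤ 1 / 2 →
      ∃ C : ℝ, ∀ (Ω : Type) (_ : MeasurableSpace Ω) (μ : Measure Ω) (E : ℕ → Set Ω),
        iIndepSet E μ → (∀ n, MeasurableSet (E n)) →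
        (∀ᶠ n : ℕ in atTop, δ * (n : ℝ) ^ (θ - 1 / 2) ≤ μ.real (E n)) →
        ∀ᵐ ω ∂μ, ∀ A : Set ℕ, (∀ᶠ n in atTop, rep A n ≤ R) →
          {s | s ∈ rset E ω ∧ rep A s < v}.Finite →
          ∀ᶠ x : ℕ in atTop, (((range x).filter (fun n => rep A n < v)).card : ℝ) ≤
            C * (x : ℝ) ^ (1 - θ)) ∧
    -- 6. sets of targets below the square root
    (∀ C η : ℝ, 0 < η → ∃ K : ℕ, ∀ S : Set ℕ,
      (∀ x : ℕ, 1 ≤ x → (cnt S x : ℝ) ≤ C * (x : ℝ) ^ (1 / 2 - η)) →
      ∃ A : Set ℕ, (∀ s ∈ S, 1 ≤ rep A s) ∧ ∀ n, rep A n ≤ K):= by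
  refine ⟨Pool.Agent.H38.SP.sparse_local, ?_, Pool.Agent.H38.SP.random_local, ?_,
    Pool.Agent.H38.SP.random_power, Pool.Agent.H38.SP.cover_sparse⟩
  · obtain ⟨S, C, L, h1, h2⟩ := Pool.Agent.H38.SP.sparse_local 1 3
      ⟨le_rfl, by norm_num, by norm_num⟩
    refine ⟨S, C, h1, fun A hA hfin => ?_⟩
    obtain ⟨b, hb⟩ := hA.bddAbove
    obtain ⟨c, hc⟩ := hfin.bddAbove
    rcases h2 A (b + c + 1) (by omega) with ⟨s, hs1, hs2, -, hs3⟩ | ⟨n, hn1, -, hn2⟩
    · have h3 : s ≤ b := hb ⟨hs1, by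
        have : Pool.Agent.H38.SP.rep A s = 0 := by omega
        exact this⟩
      have h4 : b + c + 1 ≤ (b + c + 1) ^ 2 := Nat.le_self_pow two_ne_zero _
      omega
    · have h3 : n ≤ c := hc (show 8 ≤ rep A n from hn2)
      omega
  · intro Ω _ μ E hind hE hp
    exact Pool.Agent.H38.SP.random_density E hind hE hp

end Pool.Agent.Results.MP_12a1af_nt.SparseTargets
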